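import Mathlib
import Pool.Agent.V11307.RV.G5

/-!
# The monotone triangle polynomial at a duplicated even bottom row

We prove `α(n; 2, 4, ..., 2 n) = α(2 n; 2 n, 2 n, 2 n - 2, 2 n - 2, ..., 2, 2)` for all `n`.

In the shuffle algebra (with kernel `1 - x + x y`) generated by letters `t_a` one has
`t_{a+1} t_a = - (t_{a+1} - t_a)^2`, hence putting one variable of the word `t_{2n+1} t_{2n} ... t_1` equal to `1`
gives `(-1)^n ∏ (z_j - 1)` times the word `t_{2n}^2 ... t_4^2 t_2^2`, and the right side of the identity is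
`(-1)^n α(2 n + 1; 2 n + 1, ..., 2, 1)`.  After multiplication by `∏_{i<j} (z_i z_j - 1) ∏ (1 + z_i ^ 3)` both words
`t_N ... t_1` and `t_2 t_4 ... t_{2n}` become determinants of size `N` and `n`; for `N = 2 n + 1` the columns of
even index of the large determinant can be replaced by multiples of the columns of the small one, and putting
variables equal to `1` one after the other, the large determinant reduces to the small one.
-/

set_option autoImplicit false

namespace Pool.Agent.Results.MP_7863f5_co.DoubledRow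

open Finset Pool.Agent.V11175.Sh Pool.Agent.V11175.Sh.A Pool.Agent.V11175.MT Pool.Agent.V11307.RV

/-- **The monotone triangle polynomial at a duplicated even bottom row.**  First: the monotone triangle
polynomials exist and are unique.  Second: for all `n`, with `P = α(n; ·)` and `Q = α(2 n; ·)`,
`P(2, 4, ..., 2 n) = Q(2 n, 2 n, 2 n - 2, 2 n - 2, ..., 2, 2)`: the argument of `Q` with (zero-based) index `j` is
`2 (n - ⌊j / 2⌋)`; and `P(2, 4, ..., 2 n)` is the number of monotone triangles with bottom row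
`(2, 4, ..., 2 n)`. -/
theorem result :
    (∀ n : ℕ, ∃! P : MvPolynomial (Fin n) ℚ, IsAlpha n P) ∧
    ∀ n : ℕ, ∀ P : MvPolynomial (Fin n) ℚ, IsAlpha n P →
      ∀ Q : MvPolynomial (Fin (2 * n)) ℚ, IsAlpha (2 * n) Q →
      MvPolynomial.eval (fun j : Fin n => ((2 * ((j : ℕ) + 1) : ℕ) : ℚ)) P =
        MvPolynomial.eval (fun j : Fin (2 * n) => ((2 * (n - (j : ℕ) / 2) : ℕ) : ℚ)) Q ∧
      MvPolynomial.eval (fun j : Fin n => ((2 * ((j : ℕ) + 1) : ℕ) : ℚ)) P =
        numMT n (fun j : Fin n => ((2 * ((j : ℕ) + 1) : ℕ) : ℤ)) := by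
  refine ⟨existsUnique, ?_⟩
  intro n P hP Q hQ
  have h1 := eval_eq hP (fun j : Fin n => 2 * ((j : ℕ) + 1))
  have h2 := eval_eq hQ (fun j : Fin (2 * n) => 2 * (n - (j : ℕ) / 2))
  rw [h1, h2]
  constructor
  · rw [alpha_of_list _ _ (ofFn_xl n), alpha_of_list _ _ (ofFn_vl n), al_dbl]
  · refine alpha_eq_num _ (fun i j hij => ?_)
    rw [Fin.lt_def] at hij
    change 2 * ((i : ℕ) + 1) < 2 * ((j : ℕ) + 1)
    omega

end Pool.Agent.Results.MP_7863f5_co.DoubledRow
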